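import Pool.Agent.BR.Word

/-!
MP_708370_co. One algorithm solves all the mazes whose component is bounded below or above and has
width at most `f(|y|) + c` at height `y`; this contains all such mazes between two vertical walls
at any distance (`f = 0`).
-/

set_option autoImplicit false

namespace Pool.Agent.Results.MP_708370_co.OneSided

open Pool.Agent.BR

theorem result (f : ℕ → ℕ) : ∃ w : ℕ → Dir, ∀ M : Board,
    (∃ c : ℕ, ∀ p : ℤ × ℤ, Joined M (0, 0) p → |p.1| ≤ f p.2.natAbs + c) →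
    ((∃ b : ℤ, ∀ p : ℤ × ℤ, Joined M (0, 0) p → b ≤ p.2) ∨
      (∃ b : ℤ, ∀ p : ℤ × ℤ, Joined M (0, 0) p → p.2 ≤ b)) →
    ∀ d : ℤ × ℤ, Joined M (0, 0) d → ∃ t : ℕ, robot M w t = d := by
  obtain ⟨w, hw⟩ := main f
  exact ⟨w, fun M hM hb => (hw M hM).1 hb⟩

end Pool.Agent.Results.MP_708370_co.OneSided
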