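import Pool.Agent.BR.Word

/-!
MP_708370_co. One algorithm reaches, in every maze between two vertical walls, the row of the
destination.
-/

set_option autoImplicit false

namespace Pool.Agent.Results.MP_708370_co.Rows

open Pool.Agent.BR

theorem result : ∃ w : ℕ → Dir, ∀ (k : ℕ) (M : Board), Walls k M →
    ∀ d : ℤ × ℤ, Joined M (0, 0) d → ∃ t : ℕ, (robot M w t).2 = d.2 := by
  obtain ⟨w, hw⟩ := main (fun _ => 0)
  exact ⟨w, fun k M hM => (hw M ⟨k, fun p hp => by simpa using walls_confined hM hp⟩).2⟩

end Pool.Agent.Results.MP_708370_co.Rows
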